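import Mathlib

open AddMonoidAlgebra

namespace Pool.Agent.Results.MP_847c7e_pr.Boltz

section Abs
variable {G : Type} [AddCommGroup G]

/-- Nonnegative coefficients. -/
def Nn (p : AddMonoidAlgebra ℝ G) : Prop := ∀ z, 0 ≤ p.coeff z

/-- Support in the half space `ℓ ≥ n`. -/
def Hi (ℓ : G →+ ℤ) (n : ℤ) (p : AddMonoidAlgebra ℝ G) : Prop := ∀ z, ℓ z < n → p.coeff z = 0

theorem Nn.mul {p q : AddMonoidAlgebra ℝ G} (hp : Nn p) (hq : Nn q) : Nn (p * q) := fun z => by
  rw [coeff_mul_apply_left]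
  exact Finset.sum_nonneg fun y _ => mul_nonneg (hp y) (hq _)

theorem Nn.add {p q : AddMonoidAlgebra ℝ G} (hp : Nn p) (hq : Nn q) : Nn (p + q) := fun z => by
  rw [coeff_add, Finsupp.add_apply]
  exact add_nonneg (hp z) (hq z)

omit [AddCommGroup G] in
theorem nn_single (v : G) {a : ℝ} (ha : 0 ≤ a) : Nn (single v a) := fun z => by
  classical
  rw [coeff_single, Finsupp.single_apply]
  split_ifs <;> simp [ha]

theorem nn_one : Nn (1 : AddMonoidAlgebra ℝ G) := nn_single 0 zero_le_one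

theorem Nn.pow {p : AddMonoidAlgebra ℝ G} (hp : Nn p) (k : ℕ) : Nn (p ^ k) := by
  induction k with
  | zero => simpa using nn_one
  | succ k ih => rw [pow_succ]; exact ih.mul hp

variable {ℓ : G →+ ℤ}

theorem Hi.mul {p q : AddMonoidAlgebra ℝ G} {m n : ℤ} (hp : Hi ℓ m p) (hq : Hi ℓ n q) :
    Hi ℓ (m + n) (p * q) := fun z hz => by
  rw [coeff_mul_apply_left]
  refine Finset.sum_eq_zero fun y _ => ?_
  by_cases h : ℓ y < m
  · simp [hp y h]
  · have : ℓ (-y + z) < n := by rw [map_add, map_neg]; omega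
    simp [hq _ this]

theorem Hi.add {p q : AddMonoidAlgebra ℝ G} {n : ℤ} (hp : Hi ℓ n p) (hq : Hi ℓ n q) :
    Hi ℓ n (p + q) := fun z hz => by
  rw [coeff_add, Finsupp.add_apply, hp z hz, hq z hz, add_zero]

theorem Hi.neg {p : AddMonoidAlgebra ℝ G} {n : ℤ} (hp : Hi ℓ n p) : Hi ℓ n (-p) := fun z hz => by
  rw [coeff_neg, Finsupp.neg_apply, hp z hz, neg_zero]

theorem Hi.mono {p : AddMonoidAlgebra ℝ G} {m n : ℤ} (hp : Hi ℓ n p) (h : m ≤ n) : Hi ℓ m p :=
  fun z hz => hp z (by omega)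

theorem hi_single (v : G) (a : ℝ) : Hi ℓ (ℓ v) (single v a) := fun z hz => by
  classical
  rw [coeff_single, Finsupp.single_apply, if_neg]
  rintro rfl
  omega

theorem hi_one : Hi ℓ 0 (1 : AddMonoidAlgebra ℝ G) := by
  have := hi_single (ℓ := ℓ) 0 1
  rwa [map_zero] at this

theorem Hi.pow {p : AddMonoidAlgebra ℝ G} (hp : Hi ℓ 1 p) (k : ℕ) : Hi ℓ k (p ^ k) := by
  induction k with
  | zero => simpa using hi_one
  | succ k ih => rw [pow_succ]; push_cast; exact ih.mul hp

theorem hi_sum {s : Finset ℕ} {f : ℕ → AddMonoidAlgebra ℝ G} (h : ∀ i, Hi ℓ 0 (f i)) :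
    Hi ℓ 0 (∑ i ∈ s, f i) := by
  classical
  induction s using Finset.induction_on with
  | empty => intro z _; simp
  | insert a s ha ih => rw [Finset.sum_insert ha]; exact (h a).add ih

theorem coeff_one_add {h : AddMonoidAlgebra ℝ G} {z : G} (hz : z ≠ 0) :
    (1 + h).coeff z = h.coeff z := by
  rw [coeff_add, Finsupp.add_apply, one_def, coeff_single, Finsupp.single_eq_of_ne hz, zero_add]

theorem coeff_one_add0 {h : AddMonoidAlgebra ℝ G} :
    (1 + h).coeff 0 = 1 + h.coeff 0 := by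
  rw [coeff_add, Finsupp.add_apply, one_def, coeff_single, Finsupp.single_eq_same]

theorem ne0 {h : AddMonoidAlgebra ℝ G} (hh : Nn h) : (1 + h).coeff 0 ≠ 0 := by
  rw [coeff_one_add0]; linarith [hh 0]

theorem ne1 {h : AddMonoidAlgebra ℝ G} (hh : Nn h) : 1 + h ≠ 0 := fun e =>
  ne0 hh (by rw [e]; simp)

theorem low {a p : AddMonoidAlgebra ℝ G} {n : ℤ}
    (ha : ∀ z, z ≠ 0 → ℓ z < n + 1 → a.coeff z = 0) (hp : Hi ℓ 0 p) {z : G} (hz : ℓ z ≤ n) :
    (a * p).coeff z = a.coeff 0 * p.coeff z := by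
  have h1 : Hi ℓ (n + 1) (a.erase 0) := fun y hy => by
    rw [coeff_erase]
    by_cases h : y = 0
    · rw [h, Finsupp.erase_same]
    · rw [Finsupp.erase_ne h, ha y h hy]
  have h2 := h1.mul hp z (by omega)
  conv_lhs => rw [← single_add_erase 0 a]
  rw [add_mul, coeff_add, Finsupp.add_apply, h2, coeff_single_mul_apply]
  simp

/-- The abstract hypotheses. -/
structure Good (T : AddMonoidAlgebra ℝ G → AddMonoidAlgebra ℝ G) : Prop where
  nn : ∀ p, Nn p → p ≠ 0 → Nn (T p)
  supp : ∀ p, Nn p → p ≠ 0 → ∀ z, (T p).coeff z = 0 ↔ p.coeff z = 0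
  mul : ∀ p q, Nn p → p ≠ 0 → Nn q → q ≠ 0 → T (p * q) = T p * T q

variable {T : AddMonoidAlgebra ℝ G → AddMonoidAlgebra ℝ G}

theorem Good.z (hT : Good T) {h : AddMonoidAlgebra ℝ G} (hh : Nn h) {z : G} (hz : z ≠ 0)
    (e : h.coeff z = 0) : (T (1 + h)).coeff z = 0 := by
  rw [hT.supp _ (nn_one.add hh) (ne1 hh), coeff_one_add hz, e]

theorem Good.p (hT : Good T) {h : AddMonoidAlgebra ℝ G} (hh : Nn h) :
    (T (1 + h)).coeff 0 ≠ 0 := by
  rw [Ne, hT.supp _ (nn_one.add hh) (ne1 hh)]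
  exact ne0 hh

theorem Good.hi (hT : Good T) {h : AddMonoidAlgebra ℝ G} (hh : Nn h) (h1 : Hi ℓ 1 h) :
    Hi ℓ 0 (T (1 + h)) := fun z hz =>
  hT.z hh (by rintro rfl; simp at hz) (h1 z (by omega))

theorem Good.m (hT : Good T) {h k : AddMonoidAlgebra ℝ G} (hh : Nn h) (hk : Nn k) :
    T ((1 + h) * (1 + k)) = T (1 + h) * T (1 + k) :=
  hT.mul _ _ (nn_one.add hh) (ne1 hh) (nn_one.add hk) (ne1 hk)

/-- Normalised coefficient. -/
noncomputable def N (T : AddMonoidAlgebra ℝ G → AddMonoidAlgebra ℝ G)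
    (h : AddMonoidAlgebra ℝ G) (z : G) : ℝ := (T (1 + h)).coeff z / (T (1 + h)).coeff 0

theorem Good.loc (hT : Good T) {h k : AddMonoidAlgebra ℝ G} (hh : Nn h) (hk : Nn k)
    (h1 : Hi ℓ 1 h) (k1 : Hi ℓ 1 k) {z : G} (hz : 0 ≤ ℓ z) (hd : Hi ℓ (ℓ z + 1) (k + -h)) :
    N T h z = N T k z := by
  obtain ⟨n, hn⟩ := Int.eq_ofNat_of_zero_le hz
  set r := ∑ i ∈ Finset.range (2 * n + 1), (-h) ^ i with hr
  have r0 : Hi ℓ 0 r := hi_sum fun i => (h1.neg.pow i).mono (by omega)
  have r1 : (1 + h) * r = 1 + h ^ (2 * n + 1) := by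
    have := mul_neg_geom_sum (-h) (2 * n + 1)
    rw [sub_neg_eq_add, Odd.neg_pow ⟨n, rfl⟩, sub_neg_eq_add] at this
    exact this
  have e1 : Hi ℓ (ℓ z + 1) ((k + -h) * r) := (hd.mul r0).mono (by omega)
  set e := (k + -h) * r with he
  let q : AddMonoidAlgebra ℝ G := ofCoeff (e.coeff.mapRange abs abs_zero)
  have q0 : Nn q := fun y => by simp [q]
  have q1 : Nn (e + q) := fun y => by
    simp only [q, coeff_add, Finsupp.add_apply, Finsupp.mapRange_apply]
    linarith [neg_abs_le (e.coeff y)]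
  have q2 : Hi ℓ (ℓ z + 1) q := fun y hy => by simp [q, e1 y hy]
  have p1 : Hi ℓ (ℓ z + 1) (h ^ (2 * n + 1)) := (h1.pow _).mono (by push_cast; omega)
  set a := h ^ (2 * n + 1) + (1 + h) * q with ha
  set b := h ^ (2 * n + 1) + ((e + q) + k * q) with hb
  have a0 : Nn a := (hh.pow _).add ((nn_one.add hh).mul q0)
  have b0 : Nn b := (hh.pow _).add (q1.add (hk.mul q0))
  have a1 : Hi ℓ (ℓ z + 1) a :=
    p1.add (((hi_one.add (h1.mono zero_le_one)).mul q2).mono (by omega))
  have b1 : Hi ℓ (ℓ z + 1) b := p1.add ((e1.add q2).add ((k1.mul q2).mono (by omega)))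
  have id : (1 + a) * (1 + k) = (1 + b) * (1 + h) := by
    have : 1 + a = (1 + h) * (r + q) := by rw [mul_add, r1, ha, add_assoc]
    rw [this]
    have : 1 + b = (1 + k) * (r + q) := by
      rw [hb, he, ← add_assoc, ← r1]; ring
    rw [this]; ring
  have id2 := congrArg T id
  rw [hT.m a0 hk, hT.m b0 hh] at id2
  have ha2 : ∀ y, y ≠ 0 → ℓ y < ℓ z + 1 → (T (1 + a)).coeff y = 0 :=
    fun y hy h' => hT.z a0 hy (a1 y h')
  have hb2 : ∀ y, y ≠ 0 → ℓ y < ℓ z + 1 → (T (1 + b)).coeff y = 0 :=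
    fun y hy h' => hT.z b0 hy (b1 y h')
  have c1 := congrArg (fun p => p.coeff z) id2
  have c0 := congrArg (fun p => p.coeff 0) id2
  rw [low ha2 (hT.hi hk k1) le_rfl, low hb2 (hT.hi hh h1) le_rfl] at c1
  rw [low ha2 (hT.hi hk k1) (by simpa using hz), low hb2 (hT.hi hh h1) (by simpa using hz)] at c0
  rw [N, N, div_eq_div_iff (hT.p hh) (hT.p hk)]
  apply mul_left_cancel₀ (hT.p a0)
  linear_combination (T (1 + h)).coeff z * c0 - (T (1 + h)).coeff 0 * c1

theorem Good.two (hT : Good T) {v : G} (hv : v ≠ 0) {a : ℝ} (ha : 0 ≤ a) :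
    T (1 + single v a) = single 0 ((T (1 + single v a)).coeff 0) +
      single v ((T (1 + single v a)).coeff v) := by
  classical
  ext z
  simp only [coeff_add, coeff_single, Finsupp.add_apply, Finsupp.single_apply]
  by_cases h0 : z = 0
  · subst h0; simp [hv]
  · by_cases h1 : z = v
    · subst h1; simp [hv.symm]
    · rw [if_neg (Ne.symm h0), if_neg (Ne.symm h1), add_zero]
      exact hT.z (nn_single v ha) h0 (by simp [Finsupp.single_apply, Ne.symm h1])

theorem Good.step (hT : Good T) {h : AddMonoidAlgebra ℝ G} (hh : Nn h) (h1 : Hi ℓ 1 h)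
    {v : G} (hv : 1 ≤ ℓ v) {a : ℝ} (ha : 0 ≤ a) :
    N T (h + single v a) v = N T h v + N T (single v a) v := by
  have s0 := nn_single v ha
  have s1 : Hi ℓ (ℓ v) (single v a) := hi_single v a
  have hv0 : v ≠ 0 := by rintro rfl; simp at hv
  have s2 := h1.mul s1
  rw [hT.loc (ℓ := ℓ) (k := h + single v a + h * single v a) (hh.add s0)
    ((hh.add s0).add (hh.mul s0)) (h1.add (s1.mono hv))
    ((h1.add (s1.mono hv)).add (s2.mono (by omega))) (by omega)
    (by rw [show h + single v a + h * single v a + -(h + single v a) = h * single v a by ring]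
        exact s2.mono (by omega))]
  have e : 1 + (h + single v a + h * single v a) = (1 + h) * (1 + single v a) := by ring
  have u := hT.hi hh h1 (-v) (by rw [map_neg]; omega)
  have p1 := hT.p hh
  have p2 := hT.p s0
  rw [N, e, hT.m hh s0, N, N]
  set U := T (1 + h)
  have t := hT.two hv0 ha
  set W := T (1 + single v a)
  set w0 := W.coeff 0
  set w1 := W.coeff v
  rw [t, mul_add]
  simp only [coeff_add, Finsupp.add_apply, coeff_mul_single_apply, neg_zero, add_zero,
    add_neg_cancel, zero_add, u]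
  field_simp
  ring

theorem Good.N0 (hT : Good T) {h : AddMonoidAlgebra ℝ G} (hh : Nn h) (z : G) : 0 ≤ N T h z :=
  div_nonneg (hT.nn _ (nn_one.add hh) (ne1 hh) _) (hT.nn _ (nn_one.add hh) (ne1 hh) _)

theorem lin {f : ℝ → ℝ} (h0 : ∀ a, 0 ≤ a → 0 ≤ f a)
    (ha : ∀ a b, 0 ≤ a → 0 ≤ b → f (a + b) = f a + f b) {x : ℝ} (hx : 0 ≤ x) :
    f x = f 1 * x := by
  have z : f 0 = 0 := by have := ha 0 0 le_rfl le_rfl; rw [add_zero] at this; linarith
  have mn : ∀ a b, 0 ≤ a → a ≤ b → f a ≤ f b := fun a b h1 h2 => by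
    have := ha a (b - a) h1 (by linarith)
    rw [add_sub_cancel] at this
    linarith [h0 (b - a) (by linarith)]
  have nm : ∀ (n : ℕ) a, 0 ≤ a → f (n * a) = n * f a := fun n a h => by
    induction n with
    | zero => simpa using z
    | succ n ih => push_cast; rw [add_mul, one_mul, ha _ _ (by positivity) h, ih]; ring
  have key : ∀ n : ℕ, n * |f x - f 1 * x| ≤ f 1 := fun n => by
    have hn : (0 : ℝ) ≤ n * x := by positivity
    have k1 := Nat.floor_le hn
    have k2 := (Nat.lt_floor_add_one (n * x : ℝ)).le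
    set k := ⌊(n : ℝ) * x⌋₊
    have a1 := mn _ _ (by positivity) k1
    have a2 := mn _ _ hn k2
    have b1 := nm k 1 zero_le_one
    have b2 := nm (k + 1) 1 zero_le_one
    have b3 := nm n x hx
    push_cast at b2
    rw [mul_one] at b1 b2
    have f1 := h0 1 zero_le_one
    rw [← abs_of_nonneg (Nat.cast_nonneg (α := ℝ) n), ← abs_mul, abs_le]
    constructor <;> nlinarith
  by_contra hne
  have hp : 0 < |f x - f 1 * x| := abs_pos.2 (sub_ne_zero.2 hne)
  obtain ⟨n, hn⟩ := exists_nat_gt (f 1 / |f x - f 1 * x|)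
  rw [div_lt_iff₀ hp] at hn
  linarith [key n]

/-- The tilt factor. -/
noncomputable def lam (T : AddMonoidAlgebra ℝ G → AddMonoidAlgebra ℝ G) (v : G) : ℝ :=
  N T (single v 1) v

theorem Good.form (hT : Good T) {h : AddMonoidAlgebra ℝ G} (hh : Nn h) (h1 : Hi ℓ 1 h)
    {v : G} (hv : 1 ≤ ℓ v) : N T h v = lam T v * h.coeff v := by
  have hv0 : v ≠ 0 := by rintro rfl; simp at hv
  have e0 : Nn (h.erase v) := fun y => by
    rw [coeff_erase]
    by_cases e : y = v
    · rw [e, Finsupp.erase_same]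
    · rw [Finsupp.erase_ne e]; exact hh y
  have e1 : Hi ℓ 1 (h.erase v) := fun y hy => by
    rw [coeff_erase]
    by_cases e : y = v
    · rw [e, Finsupp.erase_same]
    · rw [Finsupp.erase_ne e]; exact h1 y hy
  have s := hT.step e0 e1 hv (hh v)
  rw [erase_add_single] at s
  rw [s, N, hT.z e0 hv0 (by rw [coeff_erase, Finsupp.erase_same]), zero_div, zero_add]
  exact lin (f := fun a => N T (single v a) v) (fun a ha => hT.N0 (nn_single v ha) v)
    (fun a b ha hb => by
      have := hT.step (nn_single v ha) ((hi_single v a).mono hv) hv hb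
      rwa [← single_add] at this) (hh v)

theorem Good.lam_pos (hT : Good T) (v : G) : 0 < lam T v := by
  classical
  have s := nn_single v zero_le_one
  refine lt_of_le_of_ne (hT.N0 s v) (Ne.symm (div_ne_zero ?_ (hT.p s)))
  rw [Ne, hT.supp _ (nn_one.add s) (ne1 s), coeff_add, Finsupp.add_apply, coeff_single,
    Finsupp.single_eq_same]
  linarith [nn_one (G := G) v]

theorem Good.lam_zero (hT : Good T) : lam T 0 = 1 := div_self (hT.p (nn_single 0 zero_le_one))

theorem Good.lam_add (hT : Good T) {v w : G} (hv : 1 ≤ ℓ v) (hw : 1 ≤ ℓ w) :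
    lam T (v + w) = lam T v * lam T w := by
  classical
  have hv0 : v ≠ 0 := by rintro rfl; simp at hv
  have hw0 : w ≠ 0 := by rintro rfl; simp at hw
  have s := nn_single v zero_le_one
  have t := nn_single w zero_le_one
  have s1 : Hi ℓ 1 (single v (1 : ℝ)) := (hi_single v 1).mono hv
  have t1 : Hi ℓ 1 (single w (1 : ℝ)) := (hi_single w 1).mono hw
  have f := hT.form (ℓ := ℓ) ((s.add t).add (s.mul t)) ((s1.add t1).add ((s1.mul t1).mono
    (by omega))) (v := v + w) (by rw [map_add]; omega)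
  have e : 1 + (single v (1 : ℝ) + single w 1 + single v 1 * single w 1) =
      (1 + single v 1) * (1 + single w 1) := by ring
  have c : (single v (1 : ℝ) + single w 1 + single v 1 * single w 1).coeff (v + w) = 1 := by
    simp [single_mul_single, Finsupp.single_apply, hv0, hw0]
  rw [c, mul_one, N, e, hT.m s t] at f
  rw [← f, lam, lam, N, N]
  have p1 := hT.p s
  have p2 := hT.p t
  have u1 := hT.hi s s1 (-w) (by rw [map_neg]; omega)
  have u2 := hT.z s (z := v + w) (by intro h; have := congrArg ℓ h; simp at this; omega)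
    (by simp [Finsupp.single_apply, hw0])
  have t2 := hT.two hw0 zero_le_one
  set U := T (1 + single v 1)
  set W := T (1 + single w 1)
  set w0 := W.coeff 0
  set w1 := W.coeff w
  rw [t2, mul_add]
  simp only [coeff_add, Finsupp.add_apply, coeff_mul_single_apply, neg_zero, add_zero,
    add_neg_cancel_right, zero_add, u1, u2]
  field_simp
  ring

theorem Good.one (hT : Good T) (v : G) {a : ℝ} (ha : 0 < a) :
    ∃ c : ℝ, c ≠ 0 ∧ T (single v a) = single v c := by
  classical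
  have s := nn_single v ha.le
  have n : single v a ≠ 0 := single_ne_zero.2 ha.ne'
  refine ⟨(T (single v a)).coeff v, ?_, ?_⟩
  · rw [Ne, hT.supp _ s n]; simp [ha.ne']
  · ext z
    by_cases h : z = v
    · simp [h]
    · rw [coeff_single, Finsupp.single_eq_of_ne h, hT.supp _ s n, coeff_single,
        Finsupp.single_eq_of_ne h]

theorem Good.lam_neg (hT : Good T) (v : G) : lam T (-v) * lam T v = 1 := by
  have s := nn_single v zero_le_one
  have e : (1 + single (-v) (1 : ℝ)) = single (-v) 1 * (1 + single v 1) := by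
    rw [mul_add, mul_one, single_mul_single, add_comm]; simp [one_def]
  obtain ⟨c, hc, h⟩ := hT.one (-v) one_pos
  have p := hT.lam_pos v
  have p1 := hT.p s
  rw [lam, N] at p
  rw [lam, lam, N, N, e, hT.mul _ _ (nn_single _ zero_le_one) (single_ne_zero.2 one_ne_zero)
    (nn_one.add s) (ne1 s), h]
  simp only [coeff_single_mul_apply, neg_neg, add_neg_cancel, add_zero]
  have : (T (1 + single v 1)).coeff v ≠ 0 := fun e => by simp [e] at p
  field_simp

theorem Good.fin (hT : Good T) (hl : ∀ v w, lam T (v + w) = lam T v * lam T w)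
    {p : AddMonoidAlgebra ℝ G} (hp : Nn p) {y : G} (hy : p.coeff y ≠ 0)
    (hm : ∀ x, x ≠ y → p.coeff x ≠ 0 → ℓ y < ℓ x) :
    ∃ K : ℝ, ∀ x, (T p).coeff x = K * (p.coeff x * lam T x) := by
  have hy' : 0 < p.coeff y := lt_of_le_of_ne (hp y) hy.symm
  let h : AddMonoidAlgebra ℝ G := (single (-y) (p.coeff y)⁻¹ * p).erase 0
  have hc : ∀ z, z ≠ 0 → h.coeff z = (p.coeff y)⁻¹ * p.coeff (y + z) := fun z hz => by
    simp only [h, coeff_erase, Finsupp.erase_ne hz, coeff_single_mul_apply, neg_neg]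
  have hz : h.coeff 0 = 0 := by simp only [h, coeff_erase, Finsupp.erase_same]
  have h0 : Nn h := fun z => by
    by_cases e : z = 0
    · rw [e, hz]
    · rw [hc z e]; exact mul_nonneg (inv_nonneg.2 hy'.le) (hp _)
  have h2 : ∀ z, z ≠ 0 → ℓ z < 1 → p.coeff (y + z) = 0 := fun z e hz' => by
    by_contra hn
    have := hm (y + z) (by simpa using e) hn
    rw [map_add] at this
    omega
  have h1 : Hi ℓ 1 h := fun z hz' => by
    by_cases e : z = 0
    · rw [e, hz]
    · rw [hc z e, h2 z e hz', mul_zero]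
  have e : p = single y (p.coeff y) * (1 + h) := by
    ext x
    rw [coeff_single_mul_apply]
    by_cases e : -y + x = 0
    · rw [e, coeff_one_add0, hz, add_zero, mul_one, neg_add_eq_zero.1 e]
    · rw [coeff_one_add e, hc _ e, add_neg_cancel_left]; field_simp
  obtain ⟨c, -, hc'⟩ := hT.one y hy'
  have e2 : T p = single y c * T (1 + h) := by
    conv_lhs => rw [e]
    rw [hT.mul _ _ (nn_single _ hy'.le) (single_ne_zero.2 hy) (nn_one.add h0) (ne1 h0), hc']
  have p0 := hT.p h0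
  refine ⟨c * (T (1 + h)).coeff 0 * (p.coeff y)⁻¹ * lam T (-y), fun x => ?_⟩
  rw [e2, coeff_single_mul_apply]
  have l := hl (-y) x
  by_cases e : -y + x = 0
  · rw [e, hT.lam_zero] at l
    have e3 : p.coeff x = p.coeff y := by rw [neg_add_eq_zero.1 e]
    rw [e, e3]
    have e4 : (p.coeff y)⁻¹ * p.coeff y = 1 := inv_mul_cancel₀ hy
    linear_combination (c * (T (1 + h)).coeff 0) * l -
      (c * (T (1 + h)).coeff 0 * lam T (-y) * lam T x) * e4
  · by_cases e' : ℓ (-y + x) < 1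
    · have := h2 _ e e'
      rw [hT.z h0 e (h1 _ e')]
      rw [add_neg_cancel_left] at this
      rw [this]; ring
    · have f := hT.form h0 h1 (not_lt.1 e')
      rw [N, div_eq_iff p0, hc _ e, add_neg_cancel_left, l] at f
      rw [f]; ring

end Abs

/-- Coordinate functional. -/
def pr {d : ℕ} (i : Fin d) : (Fin d → ℤ) →+ ℤ := Pi.evalAddMonoidHom (fun _ => ℤ) i

theorem pr_apply {d : ℕ} (i : Fin d) (v : Fin d → ℤ) : pr i v = v i := rfl

theorem sep {d : ℕ} (D : Finset (Fin d → ℤ)) :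
    ∃ ℓ : (Fin d → ℤ) →+ ℤ, ∀ z ∈ D, z ≠ 0 → ℓ z ≠ 0 := by
  classical
  induction D using Finset.induction_on with
  | empty => exact ⟨0, by simp⟩
  | insert a D ha ih =>
    obtain ⟨ℓ, h⟩ := ih
    by_cases h0 : a = 0 ∨ ℓ a ≠ 0
    · refine ⟨ℓ, fun z hz hz0 => ?_⟩
      rcases Finset.mem_insert.1 hz with rfl | hz
      · exact h0.resolve_left hz0
      · exact h z hz hz0
    · push Not at h0
      obtain ⟨j, hj⟩ := Function.ne_iff.1 h0.1
      let M : ℤ := ∑ w ∈ D, |w j| + 1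
      refine ⟨M • ℓ + pr j, fun z hz hz0 => ?_⟩
      rw [AddMonoidHom.add_apply, AddMonoidHom.smul_apply, pr_apply, smul_eq_mul]
      rcases Finset.mem_insert.1 hz with rfl | hz
      · rw [h0.2]; simpa using hj
      · have h1 : |z j| ≤ ∑ w ∈ D, |w j| :=
          Finset.single_le_sum (f := fun w : Fin d → ℤ => |w j|) (fun _ _ => abs_nonneg _) hz
        have h2 := h z hz hz0
        have h3 := abs_le.1 h1
        have h4 : M = ∑ w ∈ D, |w j| + 1 := rfl
        have h5 := abs_nonneg (z j)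
        rcases lt_or_gt_of_ne h2 with h6 | h6 <;> intro e <;> nlinarith

section Zd
variable {d : ℕ} {T : AddMonoidAlgebra ℝ (Fin d → ℤ) → AddMonoidAlgebra ℝ (Fin d → ℤ)}

theorem lam_e (hT : Good T) (i : Fin d) (v : Fin d → ℤ) :
    lam T (v + Pi.single i 1) = lam T v * lam T (Pi.single i 1) := by
  have he : 1 ≤ pr i (Pi.single i 1) := by simp [pr_apply]
  by_cases h : ∃ j, j ≠ i ∧ v j ≠ 0
  · obtain ⟨j, hj, hv⟩ := h
    refine hT.lam_add (ℓ := pr i + ((|v i| + 1) * v j) • pr j) ?_ ?_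
    · rw [AddMonoidHom.add_apply, AddMonoidHom.smul_apply, pr_apply, pr_apply, smul_eq_mul]
      have h1 : 1 ≤ v j * v j := by
        rcases lt_or_gt_of_ne hv with h | h <;> nlinarith
      nlinarith [neg_abs_le (v i), abs_nonneg (v i)]
    · rw [AddMonoidHom.add_apply, AddMonoidHom.smul_apply, pr_apply, pr_apply]
      simp [Pi.single_eq_of_ne hj]
  · push Not at h
    rcases lt_trichotomy (v i) 0 with h0 | h0 | h0
    · have n1 := hT.lam_neg v
      have n2 := hT.lam_neg (v + Pi.single i 1)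
      have p1 := hT.lam_pos (-(v + Pi.single i 1))
      have n3 : lam T (-v) = lam T (-(v + Pi.single i 1)) * lam T (Pi.single i 1) := by
        by_cases h1 : v i = -1
        · have : v = -Pi.single i 1 := by
            funext j
            by_cases e : j = i
            · rw [e, h1]; simp
            · rw [h j e]; simp [Pi.single_eq_of_ne e]
          rw [this, neg_add_cancel, neg_zero, neg_neg, hT.lam_zero, one_mul]
        · rw [← hT.lam_add (ℓ := pr i) (by simp [pr_apply]; omega) he]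
          congr 1; abel
      apply mul_left_cancel₀ p1.ne'
      rw [n2, ← n1, n3]; ring
    · have : v = 0 := by
        funext j
        by_cases e : j = i
        · rw [e, h0]; rfl
        · exact h j e
      rw [this, zero_add, hT.lam_zero, one_mul]
    · exact hT.lam_add (ℓ := pr i) h0 he

theorem lam_exp (hT : Good T) (v : Fin d → ℤ) :
    lam T v = Real.exp (-∑ i, -Real.log (lam T (Pi.single i 1)) * v i) := by
  let D : (Fin d → ℤ) → ℝ := fun v =>
    Real.log (lam T v) - ∑ i, Real.log (lam T (Pi.single i 1)) * v i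
  let H : AddSubgroup (Fin d → ℤ) :=
    { carrier := {w | ∀ v, D (v + w) = D v}
      add_mem' := fun {a b} ha hb v => by rw [← add_assoc, hb, ha]
      zero_mem' := fun v => by rw [add_zero]
      neg_mem' := fun {a} ha v => by rw [← ha (v + -a), neg_add_cancel_right] }
  have h1 : ∀ i, Pi.single i 1 ∈ H := fun i v => by
    simp only [D, lam_e hT, Real.log_mul (hT.lam_pos _).ne' (hT.lam_pos _).ne', Pi.add_apply,
      Int.cast_add, mul_add, Finset.sum_add_distrib]
    rw [Finset.sum_eq_single i (f := fun j => Real.log (lam T (Pi.single j 1)) *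
      ((Pi.single i (1 : ℤ) : Fin d → ℤ) j : ℝ)) (fun j _ hj => by simp [Pi.single_eq_of_ne hj])
      (by simp)]
    simp
  have h2 : v ∈ H := by
    rw [← Finset.univ_sum_single v]
    refine H.sum_mem fun i _ => ?_
    have := H.zsmul_mem (h1 i) (v i)
    rwa [← Pi.single_smul, smul_eq_mul, mul_one] at this
  have h3 := h2 0
  simp only [D, zero_add, hT.lam_zero, Real.log_one, Pi.zero_apply, Int.cast_zero, mul_zero,
    Finset.sum_const_zero, sub_zero] at h3
  simp only [neg_mul, Finset.sum_neg_distrib, neg_neg]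
  rw [← sub_eq_zero.1 h3, Real.exp_log (hT.lam_pos v)]

theorem main (hT : Good T) : ∃ β : Fin d → ℝ, ∀ p, Nn p → p ≠ 0 → ∃ K : ℝ, ∀ x,
    (T p).coeff x = K * (p.coeff x * Real.exp (-∑ i, β i * x i)) := by
  classical
  refine ⟨fun i => -Real.log (lam T (Pi.single i 1)), fun p hp hp0 => ?_⟩
  simp only [← lam_exp hT]
  obtain ⟨ℓ, hℓ⟩ := sep ((p.coeff.support ×ˢ p.coeff.support).image fun q => q.1 - q.2)
  obtain ⟨y, hy, hm⟩ := p.coeff.support.exists_min_image ℓ
    (Finsupp.support_nonempty_iff.2 fun e => hp0 (coeff_eq_zero.1 e))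
  refine hT.fin (ℓ := ℓ) (fun v w => ?_) hp (Finsupp.mem_support_iff.1 hy) fun x hx hx' => ?_
  · rw [lam_exp hT (v + w), lam_exp hT v, lam_exp hT w, ← Real.exp_add]
    simp only [Pi.add_apply, Int.cast_add, mul_add, Finset.sum_add_distrib, neg_add]
  · have h1 := Finsupp.mem_support_iff.2 hx'
    have h2 := hℓ (x - y) (Finset.mem_image.2 ⟨(x, y), Finset.mem_product.2 ⟨h1, hy⟩, rfl⟩)
      (sub_ne_zero.2 hx)
    rw [map_sub] at h2
    have := hm x h1
    omega

end Zd

/-- Total mass. -/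
noncomputable def mass {d : ℕ} : AddMonoidAlgebra ℝ (Fin d → ℤ) →ₐ[ℝ] ℝ :=
  AddMonoidAlgebra.lift ℝ ℝ (Fin d → ℤ) 1

theorem mass_eq {d : ℕ} (p : AddMonoidAlgebra ℝ (Fin d → ℤ)) :
    mass p = p.coeff.sum fun _ a => a := by
  simp [mass, AddMonoidAlgebra.lift_apply]

theorem mass_pos {d : ℕ} {p : AddMonoidAlgebra ℝ (Fin d → ℤ)} (hp : Nn p) (h : p ≠ 0) :
    0 < mass p := by
  rw [mass_eq]
  exact Finset.sum_pos (fun x hx => lt_of_le_of_ne (hp x) (Finsupp.mem_support_iff.1 hx).symm)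
    (Finsupp.support_nonempty_iff.2 fun e => h (coeff_eq_zero.1 e))

/-- Finitely supported probability measures on `ℤ^d`. -/
def P (d : ℕ) : Type :=
  {μ : (Fin d → ℤ) →₀ ℝ // (∀ x, 0 ≤ μ x) ∧ (μ.sum fun _ a => a) = 1}

/-- `ρ` is the convolution of `μ` and `ν`. -/
def IsConv {d : ℕ} (μ ν ρ : P d) : Prop :=
  ∀ x, ρ.1 x = μ.1.sum fun y a => a * ν.1 (x - y)

/-- Normalisation. -/
noncomputable def nz {d : ℕ} (p : AddMonoidAlgebra ℝ (Fin d → ℤ)) (h : Nn p ∧ p ≠ 0) : P d :=
  ⟨((mass p)⁻¹ • p).coeff, fun x => by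
    rw [coeff_smul_apply]
    exact mul_nonneg (inv_nonneg.2 (mass_pos h.1 h.2).le) (h.1 x), by
    rw [← mass_eq, map_smul, smul_eq_mul, inv_mul_cancel₀ (mass_pos h.1 h.2).ne']⟩

theorem result (d : ℕ) (Φ : P d → P d)
    (hconv : ∀ μ ν ρ : P d, IsConv μ ν ρ → IsConv (Φ μ) (Φ ν) (Φ ρ))
    (hsupp : ∀ μ : P d, (Φ μ).1.support = μ.1.support) :
    ∃ β : Fin d → ℝ, ∀ (μ : P d) (x : Fin d → ℤ),
      (Φ μ).1 x = μ.1 x * Real.exp (-∑ i, β i * x i) /
        μ.1.sum fun y a => a * Real.exp (-∑ i, β i * y i) := by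
  classical
  let T : AddMonoidAlgebra ℝ (Fin d → ℤ) → AddMonoidAlgebra ℝ (Fin d → ℤ) := fun p =>
    if h : Nn p ∧ p ≠ 0 then ofCoeff (Φ (nz p h)).1 else 0
  have hT : Good T := by
    refine ⟨fun p h1 h2 z => ?_, fun p h1 h2 z => ?_, fun p q h1 h2 h3 h4 => ?_⟩
    · simp only [T, dif_pos (And.intro h1 h2)]
      exact (Φ _).2.1 z
    · simp only [T, dif_pos (And.intro h1 h2)]
      rw [← Finsupp.notMem_support_iff, hsupp, Finsupp.notMem_support_iff]
      simp [nz, (mass_pos h1 h2).ne']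
    · have h5 : Nn (p * q) ∧ p * q ≠ 0 := ⟨h1.mul h3, fun e => by
        have := mul_pos (mass_pos h1 h2) (mass_pos h3 h4)
        rw [← map_mul, e, map_zero] at this
        exact lt_irrefl _ this⟩
      simp only [T, dif_pos (And.intro h1 h2), dif_pos (And.intro h3 h4), dif_pos h5]
      ext x
      rw [coeff_mul_apply_left]
      simp only [neg_add_eq_sub]
      refine hconv _ _ _ (fun x => ?_) x
      have : (mass (p * q))⁻¹ • (p * q) = ((mass p)⁻¹ • p) * ((mass q)⁻¹ • q) := by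
        rw [map_mul, mul_inv, smul_mul_smul_comm]
      simp only [nz, this]
      rw [coeff_mul_apply_left]
      simp only [neg_add_eq_sub]
  obtain ⟨β, hβ⟩ := main hT
  refine ⟨β, fun μ x => ?_⟩
  have m1 : mass (ofCoeff μ.1) = 1 := by rw [mass_eq]; exact μ.2.2
  have h : Nn (ofCoeff μ.1) ∧ ofCoeff μ.1 ≠ 0 := ⟨μ.2.1, fun e => by
    rw [e, map_zero] at m1; exact zero_ne_one m1⟩
  obtain ⟨K, hK⟩ := hβ _ h.1 h.2
  have e : nz _ h = μ := Subtype.ext (by simp [nz, m1])
  simp only [T, dif_pos h, e] at hK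
  have s := (Φ μ).2.2
  rw [Finsupp.sum, hsupp] at s
  simp only [hK] at s
  rw [← Finset.mul_sum] at s
  rw [hK, Finsupp.sum, eq_div_iff (right_ne_zero_of_mul_eq_one s)]
  linear_combination (μ.1 x * Real.exp (-∑ i, β i * x i)) * s

end Pool.Agent.Results.MP_847c7e_pr.Boltz
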